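import Pool.Agent.Lib.MP_4fbe7c_an.FC.Iface2
import Pool.Agent.Lib.MP_4fbe7c_an.SD.Apri1

/-!
Project FC (MP_4fbe7c_an): module LSE, the logarithm of the sum of the geometric means.
-/

set_option autoImplicit false

open Set

namespace Pool.Agent.Lib.MP_4fbe7c_an.FC.H75

open Pool.Agent.Lib.MP_4fbe7c_an.SD Pool.Agent.Lib.MP_4fbe7c_an.FC MeasureTheory

theorem lse (h : LgdStatement) : LseStatement := by
  intro L M m N d u v w S hX hSne hS t ht
  have hL := hX.hL
  have hsol := hX.sol
  have cu : ∀ k, ContinuousOn (fun x => u k t x) (Icc 0 L) := fun k =>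
    (hsol.cu k).comp (continuousOn_const.prodMk continuousOn_id) fun x hx => ⟨ht.le, hx⟩
  have hII : ∀ f : ℝ → ℝ, ContinuousOn f (Icc 0 L) → IntervalIntegrable f volume 0 L :=
    fun f hf => hf.intervalIntegrable_of_Icc hL.le
  have hnn : ∀ k, ∀ x ∈ Icc 0 L, 0 ≤ u k t x := fun k x hx =>
    nonneg hL hX.hm hX.hd hsol k t ht.le x hx
  constructor
  · have h1 : ∀ k ∈ S, L * gm L u k t ≤ ∫ x in (0)..L, u k t x := by
      intro k hk
      have hpos : ∀ x ∈ Icc 0 L, 0 < u k t x := fun x hx => (hS k hk) t ht x hx
      have hG : 0 < gm L u k t := Real.exp_pos _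
      have clog : ContinuousOn (fun x => Real.log (u k t x)) (Icc 0 L) :=
        (cu k).log fun x hx => (hpos x hx).ne'
      have h2 : ∀ x ∈ Icc 0 L, gm L u k t * (1 + Real.log (u k t x) - lg L u k t / L) ≤
          u k t x := by
        intro x hx
        have hu := hpos x hx
        have h3 := Real.log_le_sub_one_of_pos (div_pos hu hG)
        have h4 : Real.log (u k t x / gm L u k t) = Real.log (u k t x) - lg L u k t / L := by
          rw [Real.log_div hu.ne' hG.ne']
          unfold gm
          rw [Real.log_exp]
        rw [h4] at h3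
        have h5 : 1 + Real.log (u k t x) - lg L u k t / L ≤ u k t x / gm L u k t := by
          linarith
        calc gm L u k t * (1 + Real.log (u k t x) - lg L u k t / L)
            ≤ gm L u k t * (u k t x / gm L u k t) := mul_le_mul_of_nonneg_left h5 hG.le
          _ = u k t x := by field_simp
      have h6 := intervalIntegral.integral_mono_on hL.le
        (hII (fun x => gm L u k t * (1 + Real.log (u k t x) - lg L u k t / L))
          (continuousOn_const.mul ((continuousOn_const.add clog).sub continuousOn_const)))
        (hII _ (cu k)) h2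
      have h7 : ∫ x in (0)..L, gm L u k t * (1 + Real.log (u k t x) - lg L u k t / L) =
          L * gm L u k t := by
        rw [intervalIntegral.integral_const_mul,
          intervalIntegral.integral_sub ((hII _ continuousOn_const).add (hII _ clog))
            (hII _ continuousOn_const),
          intervalIntegral.integral_add (hII _ continuousOn_const) (hII _ clog),
          intervalIntegral.integral_const, intervalIntegral.integral_const]
        have h8 : ∫ x in (0)..L, Real.log (u k t x) = lg L u k t := rfl
        rw [h8]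
        simp only [smul_eq_mul, sub_zero, mul_one]
        have hL' : L ≠ 0 := hL.ne'
        field_simp
        ring
      rw [h7] at h6
      exact h6
    have h2 : mass L u t = ∑ k, ∫ x in (0)..L, u k t x := by
      unfold mass
      exact intervalIntegral.integral_finsetSum fun k _ => hII _ (cu k)
    rw [h2, Finset.mul_sum]
    calc ∑ k ∈ S, L * gm L u k t ≤ ∑ k ∈ S, ∫ x in (0)..L, u k t x := Finset.sum_le_sum h1
      _ ≤ ∑ k, ∫ x in (0)..L, u k t x :=
        Finset.sum_le_sum_of_subset_of_nonneg (Finset.subset_univ S) fun k _ _ =>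
          intervalIntegral.integral_nonneg hL.le fun x hx => hnn k x hx
  · have hW : 0 < ∑ k ∈ S, gm L u k t :=
      Finset.sum_pos (fun k _ => Real.exp_pos _) hSne
    have hder : ∀ k ∈ S, HasDerivAt (fun t => gm L u k t)
        (gm L u k t * ((d k * yy L u v k t + R1 L m u t) / L)) t := by
      intro k hk
      exact ((h L M m N d u v w k hX (hS k hk) t ht).div_const L).exp
    have hsum : HasDerivAt (fun t => ∑ k ∈ S, gm L u k t)
        (∑ k ∈ S, gm L u k t * ((d k * yy L u v k t + R1 L m u t) / L)) t :=
      HasDerivAt.fun_sum hder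
    have hlog := (hsum.log hW.ne').const_mul L
    have he : L * ((∑ k ∈ S, gm L u k t * ((d k * yy L u v k t + R1 L m u t) / L)) /
        ∑ k ∈ S, gm L u k t) =
        (∑ k ∈ S, gm L u k t / (∑ i ∈ S, gm L u i t) * (d k * yy L u v k t)) +
          R1 L m u t := by
      have hL' : L ≠ 0 := hL.ne'
      have e1 : R1 L m u t = ∑ k ∈ S, gm L u k t / (∑ i ∈ S, gm L u i t) * R1 L m u t := by
        rw [← Finset.sum_mul, ← Finset.sum_div, div_self hW.ne', one_mul]
      rw [Finset.sum_div, Finset.mul_sum]
      conv_rhs => rw [e1]
      rw [← Finset.sum_add_distrib]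
      refine Finset.sum_congr rfl fun k _ => ?_
      field_simp
    rw [he] at hlog
    exact hlog

end Pool.Agent.Lib.MP_4fbe7c_an.FC.H75
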